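import Pool.Agent.Helper68_LQX.INIb

/-!
# The parameters (stretched exponential version): `Adm` and the errors
-/

set_option autoImplicit false

open MeasureTheory ProbabilityTheory Function Filter

open scoped ENNReal BigOperators Topology NNReal ComplexOrder Matrix

noncomputable section

namespace Pool.Agent.LE.QX.H68

open Pool.Agent.Anderson hiding box mem_box card_box
open Pool.Agent.Loc Pool.Agent.Mob Pool.Agent.Helper54.Bal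
  Pool.Agent.Helper96.EXP Pool.Agent.BED
open Pool.Agent.LE.MN Pool.Agent.LE.CL Pool.Agent.LE.IR Pool.Agent.LE.QD Pool.Agent.LE.QF
open Pool.Agent.LE.QF.H68

section Mk

variable (K : Cst) (M : ℕ) [NeZero M] (s E η : ℝ) (m : ℂ)

theorem mx_w : (mkX K s E η m M).w = wv s η m := by
  simp [Dat.w, Dat.kp, mkX, wv]

theorem mx_zt : (mkX K s E η m M).zt 0 = ⟨E, η⟩ + ((s ^ 2 : ℝ) : ℂ) * m := by
  simp [Dat.zt, mkX]

theorem mx_ta : (mkX K s E η m M).ta 0 = wv s η m / m.im := by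
  simp [Dat.ta, Dat.kp, mkX, wv]

theorem mx_G0 : (mkX K s E η m M).G0 = rs 0 (⟨E, η⟩ + ((s ^ 2 : ℝ) : ℂ) * m) := by
  unfold Dat.G0
  rw [mx_zt]

theorem mx_G : (mkX K s E η m M).G 0 = rs 0 (⟨E, η⟩ + ((s ^ 2 : ℝ) : ℂ) * m) := by
  unfold Dat.G
  rw [Prod.snd_zero, Prod.fst_zero, mx_zt]

end Mk

variable {K : Cst} {M : ℕ} [NeZero M] {s E η : ℝ} {m : ℂ}

namespace GivX

theorem mpos (g : GivX K M s E η m) (hK : K.Ok) : 0 < m.im := lt_of_lt_of_le hK.hcm.1 g.hm1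

theorem m_diag (g : GivX K M s E η m) (hK : K.Ok) (ral : RalStmt) (a : Tor K.d M) :
    rs (0 : Tor K.d M → ℝ) (⟨E, η⟩ + ((s ^ 2 : ℝ) : ℂ) * m) a a = m := by
  have h : 0 < (⟨E, η⟩ + ((s ^ 2 : ℝ) : ℂ) * m : ℂ).im := by
    rw [g.imz]
    exact g.wpos hK
  rw [rs_diag ral _ h, ← rs_diag ral _ h (0 : Tor K.d M)]
  exact g.hm

/-- the logarithm of `M` -/
theorem logM (g : GivX K M s E η m) : Real.log M ≤ 3 * s ^ (-(K.θ / 8)) := by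
  have hs := g.hs.q0.1
  have hM := g.Mpos
  have hη := g.ηpos
  have h1 : (M : ℝ) ≤ (s ^ 6 * η ^ 2)⁻¹ := by
    rw [le_inv_comm₀ hM (by positivity), inv_eq_one_div, le_div_iff₀ hM]
    exact g.hM2
  have h2 : Real.log M ≤ Real.log ((s ^ 6 * η ^ 2)⁻¹) := Real.log_le_log hM h1
  have h3 : Real.log ((s ^ 6 * η ^ 2)⁻¹) = 6 * Real.log (1 / s) - 2 * Real.log η := by
    rw [Real.log_inv, Real.log_mul (by positivity) (by positivity), Real.log_pow, Real.log_pow,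
      one_div, Real.log_inv]
    push_cast
    ring
  have h4 : -(s ^ (-(K.θ / 8))) ≤ Real.log η := by
    rw [Real.le_log_iff_exp_le hη]
    exact g.hη1
  have h5 := g.hs.z1
  linarith

theorem ypos (g : GivX K M s E η m) : 0 < s ^ (K.θ / 8) := by
  have := g.hs.q0.1
  positivity

theorem xy (g : GivX K M s E η m) : s ^ K.θ = (s ^ (K.θ / 8)) ^ 8 := by
  rw [xpow g.hs.q0.1]
  congr 1
  push_cast
  ring

theorem y1 (g : GivX K M s E η m) (hK : K.Ok) : s ^ (K.θ / 8) ≤ 1 := by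
  apply Real.rpow_le_one g.hs.q0.1.le g.s1
  have := hK.θpos
  positivity

theorem Yy (g : GivX K M s E η m) : s ^ (-(K.θ / 8)) = (s ^ (K.θ / 8))⁻¹ :=
  Real.rpow_neg g.hs.q0.1.le _

theorem Md (g : GivX K M s E η m) :
    (M : ℝ) ^ K.d ≤ Real.exp (3 * K.d * (s ^ (K.θ / 8))⁻¹) := by
  have hM := g.Mpos
  have h1 := g.logM
  rw [g.Yy] at h1
  have h2 : (M : ℝ) ≤ Real.exp (3 * (s ^ (K.θ / 8))⁻¹) := by
    rw [← Real.log_le_iff_le_exp hM]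
    exact h1
  calc (M : ℝ) ^ K.d ≤ (Real.exp (3 * (s ^ (K.θ / 8))⁻¹)) ^ K.d := by gcongr
    _ = Real.exp (3 * K.d * (s ^ (K.θ / 8))⁻¹) := by
        rw [← Real.exp_nat_mul]
        congr 1
        ring

theorem hk (g : GivX K M s E η m) (hK : K.Ok) :
    1 ≤ ⌈((s ^ (K.θ / 8)) ^ 2)⁻¹⌉₊ ∧
    (⌈((s ^ (K.θ / 8)) ^ 2)⁻¹⌉₊ : ℝ) * (s ^ K.θ) ^ 5 ≤ K.c₀ ∧
    (M : ℝ) ^ K.d * ((s ^ K.θ) ^ 3) ^ (2 * ⌈((s ^ (K.θ / 8)) ^ 2)⁻¹⌉₊) ≤ 1 / 4 := by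
  have hs := g.hs.q0.1
  have hy := g.ypos
  have hy1 := g.y1 hK
  have h1 : 1 ≤ ((s ^ (K.θ / 8)) ^ 2)⁻¹ := by
    rw [one_le_inv₀ (by positivity)]
    exact pow_le_one₀ hy.le hy1
  have h2 : ((s ^ (K.θ / 8)) ^ 2)⁻¹ ≤ (⌈((s ^ (K.θ / 8)) ^ 2)⁻¹⌉₊ : ℝ) := Nat.le_ceil _
  have h3 : (⌈((s ^ (K.θ / 8)) ^ 2)⁻¹⌉₊ : ℝ) ≤ 2 * ((s ^ (K.θ / 8)) ^ 2)⁻¹ := by
    have := Nat.ceil_lt_add_one (by positivity : 0 ≤ ((s ^ (K.θ / 8)) ^ 2)⁻¹)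
    linarith
  refine ⟨?_, ?_, ?_⟩
  · have : (1 : ℝ) ≤ (⌈((s ^ (K.θ / 8)) ^ 2)⁻¹⌉₊ : ℝ) := h1.trans h2
    exact_mod_cast this
  · rw [g.xy]
    calc (⌈((s ^ (K.θ / 8)) ^ 2)⁻¹⌉₊ : ℝ) * ((s ^ (K.θ / 8)) ^ 8) ^ 5
        ≤ 2 * ((s ^ (K.θ / 8)) ^ 2)⁻¹ * ((s ^ (K.θ / 8)) ^ 8) ^ 5 := by gcongr
      _ = 2 * (s ^ (K.θ / 8)) ^ 38 := by field_simp
      _ ≤ K.c₀ := g.hs.z2
  · generalize (⌈((s ^ (K.θ / 8)) ^ 2)⁻¹⌉₊) = k at h2 h3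
    have h4 := g.Md
    have hl : 1 ≤ Real.log (1 / s) := by
      have a1 : Real.exp 1 ≤ 1 / s := by
        have := Real.exp_one_lt_d9
        have h5 := g.hs.q0.2
        rw [le_div_iff₀ hs]
        nlinarith
      rw [Real.le_log_iff_exp_le (by positivity)]
      exact a1
    have h5 : ((s ^ K.θ) ^ 3) ^ (2 * k) ≤ Real.exp (-(6 * K.θ * ((s ^ (K.θ / 8)) ^ 2)⁻¹)) := by
      have a1 : ((s ^ K.θ) ^ 3) ^ (2 * k) = s ^ (6 * K.θ * k) := by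
        rw [← pow_mul, xpow hs]
        congr 1
        push_cast
        ring
      have hθ := hK.θpos
      rw [a1, Real.rpow_def_of_pos hs]
      apply Real.exp_le_exp.2
      have a2 : Real.log s = -Real.log (1 / s) := by
        rw [one_div, Real.log_inv]
        ring
      rw [a2]
      have a3 : 6 * K.θ * ((s ^ (K.θ / 8)) ^ 2)⁻¹ ≤ Real.log (1 / s) * (6 * K.θ * k) := by
        calc 6 * K.θ * ((s ^ (K.θ / 8)) ^ 2)⁻¹ ≤ 6 * K.θ * k := by gcongr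
          _ = 1 * (6 * K.θ * k) := (one_mul _).symm
          _ ≤ Real.log (1 / s) * (6 * K.θ * k) := by gcongr
      linarith
    calc (M : ℝ) ^ K.d * ((s ^ K.θ) ^ 3) ^ (2 * k)
        ≤ Real.exp (3 * K.d * (s ^ (K.θ / 8))⁻¹) *
          Real.exp (-(6 * K.θ * ((s ^ (K.θ / 8)) ^ 2)⁻¹)) := by gcongr
      _ = Real.exp (3 * K.d * (s ^ (K.θ / 8))⁻¹ + -(6 * K.θ * ((s ^ (K.θ / 8)) ^ 2)⁻¹)) := by
          rw [Real.exp_add]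
      _ ≤ Real.exp (-2) := by
          apply Real.exp_le_exp.2
          have b1 := g.hs.z3
          have b2 : (3 * K.d + 2) * (s ^ (K.θ / 8))⁻¹ ≤ 6 * K.θ * ((s ^ (K.θ / 8)) ^ 2)⁻¹ := by
            calc (3 * K.d + 2) * (s ^ (K.θ / 8))⁻¹
                = (3 * K.d + 2) * s ^ (K.θ / 8) * ((s ^ (K.θ / 8)) ^ 2)⁻¹ := by field_simp
              _ ≤ 6 * K.θ * ((s ^ (K.θ / 8)) ^ 2)⁻¹ := by gcongr
          have b3 : 1 ≤ (s ^ (K.θ / 8))⁻¹ := by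
            rw [one_le_inv₀ hy]
            exact hy1
          linarith
      _ ≤ 1 / 4 := by
          rw [Real.exp_neg, one_div]
          apply inv_anti₀ (by norm_num)
          have c1 := Real.exp_one_gt_d9
          have c2 : Real.exp 2 = Real.exp 1 * Real.exp 1 := by
            rw [← Real.exp_add]
            norm_num
          rw [c2]
          nlinarith

theorem xi (g : GivX K M s E η m) (n : ℕ) : 1 ≤ ((s ^ K.θ) ^ n)⁻¹ := by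
  have hx := g.xpos
  have hx1 := g.x1
  rw [one_le_inv₀ (by positivity)]
  exact pow_le_one₀ hx.le hx1

theorem Npos (g : GivX K M s E η m) (hK : K.Ok) :
    1 ≤ K.CF * (wv s η m) ^ (-(2 / 3 : ℝ)) * (1 + Real.log M) ^ 6 := by
  have h1 := hK.hCF
  have h2 : 1 ≤ (wv s η m) ^ (-(2 / 3 : ℝ)) := by
    apply Real.one_le_rpow_of_pos_of_le_one_of_nonpos (g.wpos hK)
    · linarith [g.w_half hK]
    · norm_num
  have h3 : 1 ≤ (1 + Real.log M) ^ 6 := by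
    apply one_le_pow₀
    have := Real.log_nonneg g.M1
    linarith
  calc (1 : ℝ) = 1 * 1 * 1 := by norm_num
    _ ≤ _ := by gcongr

theorem jlow (g : GivX K M s E η m) : 2 ≤ ⌈(s ^ K.θ)⁻¹⌉₊ ∧ 2 ≤ ⌈((s ^ K.θ) ^ 4)⁻¹⌉₊ := by
  have hx := g.xpos
  have hx8 := g.hs.q5.2
  have h1 : 8 ≤ (s ^ K.θ)⁻¹ := by
    rw [le_inv_comm₀ (by norm_num) hx]
    linarith
  have h2 : 8 ≤ ((s ^ K.θ) ^ 4)⁻¹ := by
    refine h1.trans ?_
    apply inv_anti₀ (by positivity)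
    calc (s ^ K.θ) ^ 4 ≤ (s ^ K.θ) ^ 1 := pow_le_pow_of_le_one hx.le g.x1 (by norm_num)
      _ = s ^ K.θ := pow_one _
  constructor
  · have := h1.trans (Nat.le_ceil (s ^ K.θ)⁻¹)
    have h3 : (8 : ℕ) ≤ ⌈(s ^ K.θ)⁻¹⌉₊ := by exact_mod_cast this
    omega
  · have := h2.trans (Nat.le_ceil ((s ^ K.θ) ^ 4)⁻¹)
    have h3 : (8 : ℕ) ≤ ⌈((s ^ K.θ) ^ 4)⁻¹⌉₊ := by exact_mod_cast this
    omega

theorem hYm (g : GivX K M s E η m) (hK : K.Ok) (F : Fac K) (kft : KftStmt)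
    (u : Tor K.d M → ℂ) : n2 ((mkX K s E η m M).Y 0 *ᵥ u) ≤ ((s ^ K.θ) ^ 3 / 2) ^ 2 * n2 u := by
  have hw := g.wpos hK
  have hx := g.xpos
  have hs := g.hs.q0.1
  have hm := g.mpos hK
  obtain ⟨-, -, k3, -, -, -⟩ := kft K.d M (⟨E, η⟩ + ((s ^ 2 : ℝ) : ℂ) * m)
    (by rw [g.imz]; exact hw)
  have h11 : 0 ≤ K.Kl := by linarith [hK.Klpos]
  have h12 : 0 ≤ 1 + Real.log (1 / s) := by linarith [g.l1]
  have h13 : 0 ≤ K.CB := by linarith [hK.hCB]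
  have h14 : 0 < K.Cw := by linarith [hK.Cwpos]
  have h15 : 0 < K.cm := hK.hcm.1
  set β : ℝ := K.CB * (K.Kl * (1 + Real.log (1 / s))) *
      (Real.sqrt K.Cw * (s ^ K.θ) ^ 6 + 2 * K.Cw * s ^ K.ε) / wv s η m with hβ
  have hβ0 : 0 ≤ β := by positivity
  have h1 := k3 β u fun p => g.bh_le hK F p
  unfold Dat.Y
  rw [Prod.fst_zero, mx_ta, mx_G]
  refine hY_of _ (wv s η m / m.im) β _ (by positivity) hβ0 ?_ u h1
  calc wv s η m / m.im * β ≤ wv s η m / K.cm * β := by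
        have := g.hm1
        gcongr
    _ = K.CB * K.Kl / K.cm * (1 + Real.log (1 / s)) *
        (Real.sqrt K.Cw * (s ^ K.θ) ^ 6 + 2 * K.Cw * s ^ K.ε) := by
        rw [hβ]
        field_simp
    _ ≤ (s ^ K.θ) ^ 3 / 2 := g.hs.q11

theorem hWm (g : GivX K M s E η m) (hK : K.Ok) (F : Fac K) (kft : KftStmt) (inw : InwStmt)
    (hcs : 2 * K.Cm ≤ K.cG * K.cs) (f : Tor K.d M → ℝ) :
    (1 + (s ^ K.θ) ^ 3 / 2) * qf ((mkX K s E η m M).A 0)⁻¹ f ≤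
      qf ((mkX K s E η m M).X 0 + P0 (Tor K.d M)) f := by
  have hw := g.wpos hK
  have hx := g.xpos
  have hx1 := g.x1
  have hm := g.mpos hK
  have hz : 0 < (⟨E, η⟩ + ((s ^ 2 : ℝ) : ℂ) * m : ℂ).im := by
    rw [g.imz]
    exact hw
  obtain ⟨hJ1, hJ2, hJ3⟩ := g.Jb hK
  have hcs1 := hK.hcs
  have hx3 : 0 < (s ^ K.θ) ^ 3 := by positivity
  have hx31 : (s ^ K.θ) ^ 3 ≤ 1 := pow_le_one₀ hx.le hx1
  have h := inw K.d M (⟨E, η⟩ + ((s ^ 2 : ℝ) : ℂ) * m) (Jv K s M) K.cs (1 + (s ^ K.θ) ^ 3)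
    (1 + (s ^ K.θ) ^ 3 / 2) ((s ^ K.θ) ^ 3 / 8) K.cG (wv s η m / m.im) hz (by positivity)
    (by
      rw [g.kf0 hK kft]
      field_simp)
    hK.hcG (by linarith) (by positivity) (by nlinarith) (by positivity) (by linarith)
    (by positivity)
    (by
      rw [g.imz, mul_div_assoc', le_div_iff₀ hm]
      have h2 := g.hm2
      calc 2 * wv s η m * m.im ≤ 2 * wv s η m * K.Cm := by gcongr
        _ = 2 * K.Cm * wv s η m := by ring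
        _ ≤ K.cG * K.cs * wv s η m := by gcongr)
    (fun p hp => g.kf_high hK F kft hp hJ2)
    (fun p hp => F.gal M _ p (g.re_le hK) hz
      (by rw [g.imz]; exact (g.w2 hK).trans g.hs.q1.2.2) (by rw [g.imz]; exact g.MG hK)
      (fun i => by
        have a1 := abs_low hp i
        have a2 := g.Mpos
        rw [div_le_iff₀ a2] at hJ3
        have a3 := g.hs.q13
        nlinarith)) f
  rw [g.imz] at h
  unfold Dat.A Dat.X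
  rw [mx_ta, Prod.fst_zero, mx_ta, mx_G]
  exact h

theorem hϖm (g : GivX K M s E η m) (hK : K.Ok) (F : Fac K) (f : Tor K.d M → ℝ) :
    (s ^ K.θ) ^ 5 / ((2 + 2 * K.cs / K.cm) * (M : ℝ) ^ 2) * qf ((mkX K s E η m M).A 0) f ≤
      (s ^ K.θ) ^ 5 * ∑ a, f a ^ 2 := by
  have hw := g.wpos hK
  have hx := g.xpos
  have hx1 := g.x1
  have hm := g.mpos hK
  have hcm := hK.hcm.1
  have hcs : 0 < K.cs := by linarith [hK.hcs]
  have hM := g.Mpos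
  have hM1 := g.M1
  obtain ⟨hJ1, hJ2, hJ3⟩ := g.Jb hK
  obtain ⟨-, -, k3⟩ := F.inm M (Jv K s M) K.cs (wv s η m) _ _ hJ1 hK.hcs hw
    (by linarith [g.w_half hK]) rfl rfl
  have hf0 : 0 ≤ ∑ a, f a ^ 2 := Finset.sum_nonneg fun _ _ => by positivity
  have hx31 : (s ^ K.θ) ^ 3 ≤ 1 := pow_le_one₀ hx.le hx1
  have hM2 : 1 ≤ (M : ℝ) ^ 2 := one_le_pow₀ hM1
  have h1 : qf ((mkX K s E η m M).A 0) f ≤
      (2 + 2 * K.cs / K.cm) * (M : ℝ) ^ 2 * ∑ a, f a ^ 2 := by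
    unfold Dat.A
    rw [mx_ta, qf_add_smul]
    have a1 : wv s η m / m.im * qf (mkX K s E η m M).S f ≤
        2 * K.cs / K.cm * (M : ℝ) ^ 2 * ∑ a, f a ^ 2 := by
      calc wv s η m / m.im * qf (mkX K s E η m M).S f
          ≤ wv s η m / m.im * (2 * K.cs / wv s η m * (M : ℝ) ^ 2 * ∑ a, f a ^ 2) := by
            have := k3 f
            gcongr
            exact this
        _ = 2 * K.cs / m.im * (M : ℝ) ^ 2 * ∑ a, f a ^ 2 := by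
            field_simp
        _ ≤ 2 * K.cs / K.cm * (M : ℝ) ^ 2 * ∑ a, f a ^ 2 := by
            have := g.hm1
            gcongr
    have a2 : (mkX K s E η m M).e₀ * ∑ a, f a ^ 2 ≤ 2 * (M : ℝ) ^ 2 * ∑ a, f a ^ 2 := by
      have : (mkX K s E η m M).e₀ ≤ 2 * (M : ℝ) ^ 2 := by
        show 1 + (s ^ K.θ) ^ 3 ≤ 2 * (M : ℝ) ^ 2
        linarith
      gcongr
    linarith
  calc (s ^ K.θ) ^ 5 / ((2 + 2 * K.cs / K.cm) * (M : ℝ) ^ 2) * qf ((mkX K s E η m M).A 0) f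
      ≤ (s ^ K.θ) ^ 5 / ((2 + 2 * K.cs / K.cm) * (M : ℝ) ^ 2) *
        ((2 + 2 * K.cs / K.cm) * (M : ℝ) ^ 2 * ∑ a, f a ^ 2) := by gcongr
    _ = (s ^ K.θ) ^ 5 * ∑ a, f a ^ 2 := by
        field_simp

/-- the number of the near points -/
theorem hNm (g : GivX K M s E η m)
    (hfrb : ∀ x : Tor K.d M,
      (∀ y, ‖rs (0 : Tor K.d M → ℝ) (⟨E, η⟩ + ((s ^ 2 : ℝ) : ℂ) * m) x y‖ ≤ K.CF) ∧
      ∑ y, ‖rs (0 : Tor K.d M → ℝ) (⟨E, η⟩ + ((s ^ 2 : ℝ) : ℂ) * m) x y‖ ^ 4 ≤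
        K.CF * (wv s η m) ^ (-(2 / 3 : ℝ)) * (1 + Real.log M) ^ 6) (a : Tor K.d M) :
    (((mkX K s E η m M).nr a).card : ℝ) ≤ (mkX K s E η m M).N := by
  have hx := g.xpos
  have h := (hfrb a).2
  have hδ : 0 < (mkX K s E η m M).δ := by
    show 0 < (s ^ K.θ) ^ 5
    positivity
  have hN : (mkX K s E η m M).N = ((mkX K s E η m M).δ ^ 4)⁻¹ *
    (K.CF * (wv s η m) ^ (-(2 / 3 : ℝ)) * (1 + Real.log M) ^ 6) := rfl
  rw [hN]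
  refine nr_card (fun b => (mkX K s E η m M).G0 a b) hδ _ ?_ ?_
  · intro b hb
    unfold Dat.nr at hb
    rw [Finset.mem_filter] at hb
    exact hb.2
  · rw [mx_G0]
    exact h

/-- the initial value of `La` -/
theorem hLm (g : GivX K M s E η m) (hK : K.Ok)
    (hfrb : ∀ x : Tor K.d M,
      (∀ y, ‖rs (0 : Tor K.d M → ℝ) (⟨E, η⟩ + ((s ^ 2 : ℝ) : ℂ) * m) x y‖ ≤ K.CF) ∧
      ∑ y, ‖rs (0 : Tor K.d M → ℝ) (⟨E, η⟩ + ((s ^ 2 : ℝ) : ℂ) * m) x y‖ ^ 4 ≤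
        K.CF * (wv s η m) ^ (-(2 / 3 : ℝ)) * (1 + Real.log M) ^ 6) (a : Tor K.d M) :
    4 * (mkX K s E η m M).La 0 a ≤ (mkX K s E η m M).Ls 0 := by
  have hs := g.hs.q0.1
  have hw := g.wpos hK
  have hx := g.xpos
  have hx1 := g.x1
  have h1 : (mkX K s E η m M).La 0 a =
      ∑ b, ‖rs (0 : Tor K.d M → ℝ) (⟨E, η⟩ + ((s ^ 2 : ℝ) : ℂ) * m) a b‖ ^ 4 := by
    unfold Dat.La KK
    rw [mx_G]
    refine Finset.sum_congr rfl fun b _ => ?_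
    ring
  have h2 : (mkX K s E η m M).La 0 a ≤
      K.CF * (wv s η m) ^ (-(2 / 3 : ℝ)) * (1 + Real.log M) ^ 6 := by
    rw [h1]
    exact (hfrb a).2
  have hLL := g.Npos hK
  have hls : (mkX K s E η m M).Ls 0 = ((s ^ K.θ) ^ 6)⁻¹ * ((((s ^ K.θ) ^ 5) ^ 4)⁻¹ *
      (K.CF * (wv s η m) ^ (-(2 / 3 : ℝ)) * (1 + Real.log M) ^ 6) +
        s ^ 3 / wv s η m +
        ((s ^ K.θ) ^ 5) ^ 4 / wv s η m) := by
    have a0 : (mkX K s E η m M).kp 0 = wv s η m := mx_w K M s E η m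
    unfold Dat.Ls
    rw [a0]
    rfl
  rw [hls]
  generalize K.CF * (wv s η m) ^ (-(2 / 3 : ℝ)) * (1 + Real.log M) ^ 6 = LL1 at h2 hLL
  have hN : 1 ≤ (((s ^ K.θ) ^ 5) ^ 4)⁻¹ := by
    rw [← pow_mul]
    exact g.xi 20
  have hNN : LL1 ≤ (((s ^ K.θ) ^ 5) ^ 4)⁻¹ * LL1 := le_mul_of_one_le_left (by linarith) hN
  have h3 : 4 ≤ ((s ^ K.θ) ^ 6)⁻¹ := by
    rw [le_inv_comm₀ (by norm_num) (by positivity)]
    have h8 := g.hs.q5.2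
    calc (s ^ K.θ) ^ 6 ≤ (s ^ K.θ) ^ 1 := pow_le_pow_of_le_one hx.le hx1 (by norm_num)
      _ = s ^ K.θ := pow_one _
      _ ≤ 4⁻¹ := by
          norm_num at h8 ⊢
          linarith
  have a3 : 0 ≤ s ^ 3 / wv s η m := by positivity
  have a4 : 0 ≤ ((s ^ K.θ) ^ 5) ^ 4 / wv s η m := by positivity
  have h5 : 4 * LL1 ≤ ((s ^ K.θ) ^ 6)⁻¹ * ((((s ^ K.θ) ^ 5) ^ 4)⁻¹ * LL1) := by
    have : 0 ≤ LL1 := by linarith
    gcongr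
  have h6 : ((s ^ K.θ) ^ 6)⁻¹ * ((((s ^ K.θ) ^ 5) ^ 4)⁻¹ * LL1) ≤
      ((s ^ K.θ) ^ 6)⁻¹ * ((((s ^ K.θ) ^ 5) ^ 4)⁻¹ * LL1 +
        s ^ 3 / wv s η m +
        ((s ^ K.θ) ^ 5) ^ 4 / wv s η m) := by
    apply mul_le_mul_of_nonneg_left _ (by positivity)
    linarith
  linarith

/-- the diagonal of `S` -/
theorem hSm (g : GivX K M s E η m) (hK : K.Ok)
    (h : ∀ a : Tor K.d M, wv s η m * mlt (sy0 K.cs (wv s η m) (Jv K s M)) a a ≤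
      K.CI * K.cs * (((Jv K s M : ℝ) / M) ^ K.d +
        (wv s η m) ^ 2 * ((Jv K s M : ℝ) / M) ^ (K.d - 2))) (a : Tor K.d M) :
    mlt (sy0 K.cs (wv s η m) (Jv K s M)) a a + 1 / (η * (M : ℝ) ^ K.d) ≤ s ^ 3 := by
  have hs := g.hs.q0.1
  have hw := g.wpos hK
  have hη := g.ηpos
  have hM := g.Mpos
  have hM1 := g.M1
  have hcm := hK.hcm.1
  have hcs0 : 0 < K.cs := by linarith [hK.hcs]
  have hCI0 : 0 < K.CI := by linarith [hK.hCI]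
  have hCw : 2 ≤ K.Cw := hK.Cwpos
  have hd := hK.dpos
  have hε := hK.hε.1
  have hε1 := hK.hε.2
  obtain ⟨hJ1, hJ2, hJ3⟩ := g.Jb hK
  have h1 := pi_bound (η := s ^ (2 * (K.d : ℝ) - K.ε)) hK.hd hs g.s1 hε hCI0.le hcs0.le
    (by linarith) hw.le (g.w2 hK) rfl (r := K.r s) rfl (by positivity) hJ3
  have h0 : 0 < s ^ (2 * (K.d : ℝ) - K.ε) := by positivity
  rw [div_le_iff₀ h0] at h1
  have h2 := (h a).trans h1
  have h3 : mlt (sy0 K.cs (wv s η m) (Jv K s M)) a a ≤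
      K.CI * K.cs * 2 ^ K.d * (4 + K.Cw ^ 2) / K.cm * s ^ (1 / 2 : ℝ) * s ^ 3 := by
    have a1 : mlt (sy0 K.cs (wv s η m) (Jv K s M)) a a ≤
        K.CI * K.cs * 2 ^ K.d * (4 + K.Cw ^ 2) * s ^ (K.ε / 2) * s ^ (2 * (K.d : ℝ) - K.ε) /
          wv s η m := by
      rw [le_div_iff₀ hw, mul_comm]
      exact h2
    have a2 : s ^ (K.ε / 2) * s ^ (2 * (K.d : ℝ) - K.ε) ≤ s ^ (1 / 2 : ℝ) * s ^ 3 * s ^ 2 := by
      have e1 : s ^ (1 / 2 : ℝ) * s ^ 3 * s ^ 2 = s ^ (11 / 2 : ℝ) := by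
        rw [← Real.rpow_natCast s 3, ← Real.rpow_natCast s 2, ← Real.rpow_add hs,
          ← Real.rpow_add hs]
        norm_num
      rw [e1, ← Real.rpow_add hs]
      apply Real.rpow_le_rpow_of_exponent_ge hs g.s1
      linarith
    refine a1.trans ?_
    rw [div_le_iff₀ hw]
    calc K.CI * K.cs * 2 ^ K.d * (4 + K.Cw ^ 2) * s ^ (K.ε / 2) * s ^ (2 * (K.d : ℝ) - K.ε)
        = K.CI * K.cs * 2 ^ K.d * (4 + K.Cw ^ 2) *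
          (s ^ (K.ε / 2) * s ^ (2 * (K.d : ℝ) - K.ε)) := by ring
      _ ≤ K.CI * K.cs * 2 ^ K.d * (4 + K.Cw ^ 2) * (s ^ (1 / 2 : ℝ) * s ^ 3 * s ^ 2) := by
          gcongr
      _ = K.CI * K.cs * 2 ^ K.d * (4 + K.Cw ^ 2) / K.cm * s ^ (1 / 2 : ℝ) * s ^ 3 *
          (K.cm * s ^ 2) := by field_simp
      _ ≤ K.CI * K.cs * 2 ^ K.d * (4 + K.Cw ^ 2) / K.cm * s ^ (1 / 2 : ℝ) * s ^ 3 *
          wv s η m := by
          have := g.w1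
          gcongr
  have h4 : 1 / (η * (M : ℝ) ^ K.d) ≤ s * s ^ 3 := by
    have a1 : (M : ℝ) ≤ (M : ℝ) ^ K.d := le_self_pow₀ hM1 (by have := hK.hd; omega)
    have a2 : η ≤ 1 := by
      calc η ≤ s ^ 3 := g.hη2
        _ ≤ 1 := pow_le_one₀ hs.le g.s1
    rw [div_le_iff₀ (by positivity)]
    calc (1 : ℝ) ≤ s ^ 4 * η ^ 2 * M := g.hM1
      _ = s * s ^ 3 * (η * η * M) := by ring
      _ ≤ s * s ^ 3 * (η * 1 * (M : ℝ) ^ K.d) := by gcongr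
      _ = s * s ^ 3 * (η * (M : ℝ) ^ K.d) := by ring
  have h5 := g.hs.z5
  have hs3 : 0 < s ^ 3 := by positivity
  calc mlt (sy0 K.cs (wv s η m) (Jv K s M)) a a + 1 / (η * (M : ℝ) ^ K.d)
      ≤ K.CI * K.cs * 2 ^ K.d * (4 + K.Cw ^ 2) / K.cm * s ^ (1 / 2 : ℝ) * s ^ 3 + s * s ^ 3 :=
        add_le_add h3 h4
    _ = (K.CI * K.cs * 2 ^ K.d * (4 + K.Cw ^ 2) / K.cm * s ^ (1 / 2 : ℝ) + s) * s ^ 3 := by ring
    _ ≤ 1 * s ^ 3 := by gcongr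
    _ = s ^ 3 := one_mul _

/-- the hypotheses -/
theorem adm (g : GivX K M s E η m) (hK : K.Ok) (F : Fac K) (kft : KftStmt) (inw : InwStmt)
    (ral : RalStmt) (hcs : 2 * K.Cm ≤ K.cG * K.cs) :
    Adm (mkX K s E η m M) K.cm (max K.Cm K.CF) K.c₀ := by
  have hs := g.hs.q0.1
  have hw := g.wpos hK
  have hx := g.xpos
  have hx1 := g.x1
  have hm := g.mpos hK
  have hcm := hK.hcm.1
  have hcs0 : 0 < K.cs := by linarith [hK.hcs]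
  have hCI0 : 0 < K.CI := by linarith [hK.hCI]
  have hM := g.Mpos
  have hM1 := g.M1
  obtain ⟨hJ1, hJ2, hJ3⟩ := g.Jb hK
  have hx3 : 0 < (s ^ K.θ) ^ 3 := by positivity
  have hx31 : (s ^ K.θ) ^ 3 ≤ 1 := pow_le_one₀ hx.le hx1
  have hzi : 0 < (⟨E, η⟩ + ((s ^ 2 : ℝ) : ℂ) * m : ℂ).im := by
    rw [g.imz]
    exact hw
  have hfrb := F.frb M (⟨E, η⟩ + ((s ^ 2 : ℝ) : ℂ) * m) hzi
    (by rw [g.imz]; linarith [g.w_half hK]) (by rw [g.imz]; exact g.MF hK)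
  rw [g.imz] at hfrb
  obtain ⟨k1, k2, k3⟩ := F.inm M (Jv K s M) K.cs (wv s η m) _ _ hJ1 hK.hcs hw
    (by linarith [g.w_half hK]) rfl rfl
  set LL1 : ℝ := K.CF * (wv s η m) ^ (-(2 / 3 : ℝ)) * (1 + Real.log M) ^ 6 with hLL1
  have hLL : 1 ≤ LL1 := g.Npos hK
  have hN : 1 ≤ (((s ^ K.θ) ^ 5) ^ 4)⁻¹ := by
    rw [← pow_mul]
    exact g.xi 20
  have hNN : LL1 ≤ (((s ^ K.θ) ^ 5) ^ 4)⁻¹ * LL1 := le_mul_of_one_le_left (by linarith) hN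
  refine
    { hT := ⟨by show 0 < s ^ 2; positivity, g.ηpos, ?_, g.ηT hK⟩
      hm := ⟨g.hm1, g.hm2.trans (le_max_left _ _)⟩
      hfix := ?_
      hδ := ⟨by show 0 < (s ^ K.θ) ^ 5; positivity, ?_, g.hs.q5.1⟩
      hk := g.hk hK
      he := ⟨?_, ?_, ?_⟩
      hj := ⟨g.jlow.1, g.jlow.2, g.xi 6, ?_, ?_⟩
      h0 := ?_
      hN := ?_
      hY := g.hYm hK F kft
      hL := ?_
      hS := ⟨k1.1, k1.2.1, k1.2.2.1, ?_⟩
      hϖ := ⟨?_, ?_, g.hϖm hK F⟩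
      hW := g.hWm hK F kft inw hcs }
  · rw [mx_w]
    linarith [g.w_half hK]
  · intro a
    rw [mx_G0]
    exact g.m_diag hK ral a
  · show (s ^ K.θ) ^ 5 ≤ (s ^ K.θ) ^ 3
    exact pow_le_pow_of_le_one hx.le hx1 (by norm_num)
  · show 1 < 1 + (s ^ K.θ) ^ 3 / 2
    linarith
  · show 1 + (s ^ K.θ) ^ 3 / 2 ≤ 1 + (s ^ K.θ) ^ 3
    linarith
  · show 1 + (s ^ K.θ) ^ 3 ≤ 2
    linarith
  · show 1 ≤ (((s ^ K.θ) ^ 5) ^ 4)⁻¹ * LL1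
    linarith
  · show 0 ≤ s ^ 3
    positivity
  · intro a b
    rw [mx_G0]
    exact ((hfrb a).1 b).trans (le_max_right _ _)
  · exact g.hNm hfrb
  · exact g.hLm hK hfrb
  · exact g.hSm hK (k1.2.2.2)
  · show 0 < (s ^ K.θ) ^ 5 / ((2 + 2 * K.cs / K.cm) * (M : ℝ) ^ 2)
    positivity
  · show (s ^ K.θ) ^ 5 / ((2 + 2 * K.cs / K.cm) * (M : ℝ) ^ 2) ≤ (s ^ K.θ) ^ 5
    apply div_le_self (by positivity)
    have a1 : 1 ≤ (M : ℝ) ^ 2 := one_le_pow₀ hM1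
    have a2 : 0 ≤ 2 * K.cs / K.cm := by positivity
    nlinarith

/-- the errors -/
theorem aNm (g : GivX K M s E η m) (hK : K.Ok) :
    (mkX K s E η m M).aN ≤ 8000 * (s ^ (K.θ / 8)) ^ 4 := by
  have hs := g.hs.q0.1
  have hw := g.wpos hK
  have hx := g.xpos
  have hy := g.ypos
  have hy1 := g.y1 hK
  have hCw : 2 ≤ K.Cw := hK.Cwpos
  have hceil : ∀ y : ℝ, 1 ≤ y → (⌈y⌉₊ : ℝ) ≤ 2 * y := fun y hy => by
    have := Nat.ceil_lt_add_one (by linarith : 0 ≤ y)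
    linarith
  have hY1 : 1 ≤ s ^ (-(K.θ / 8)) := by
    rw [g.Yy, one_le_inv₀ hy]
    exact hy1
  have hN : (((s ^ K.θ) ^ 5) ^ 4)⁻¹ *
      (K.CF * (wv s η m) ^ (-(2 / 3 : ℝ)) * (1 + Real.log M) ^ 6) * wv s η m ≤
        (s ^ K.θ) ^ 20 := by
    refine Nw_bound (A := 4) (l := s ^ (-(K.θ / 8))) hs hx hw (g.w2 hK)
      (by linarith) (by linarith [hK.hCF]) ?_ ?_ g.hs.z6
    · have := Real.log_nonneg g.M1
      linarith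
    · have := g.logM
      linarith
  have hh : ((2 * (⌈((s ^ (K.θ / 8)) ^ 2)⁻¹⌉₊ : ℝ) + 1 : ℝ)) ≤ 5 / (s ^ (K.θ / 8)) ^ 2 := by
    have h1 : 1 ≤ ((s ^ (K.θ / 8)) ^ 2)⁻¹ := by
      rw [one_le_inv₀ (by positivity)]
      exact pow_le_one₀ hy.le hy1
    have h2 := hceil _ h1
    have e1 : 5 / (s ^ (K.θ / 8)) ^ 2 = 5 * ((s ^ (K.θ / 8)) ^ 2)⁻¹ := div_eq_mul_inv _ _
    rw [e1]
    linarith
  have h := aNx_bound (j := (⌈(s ^ K.θ)⁻¹⌉₊ : ℝ)) (p := (⌈((s ^ K.θ) ^ 4)⁻¹⌉₊ : ℝ))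
    (h := 2 * (⌈((s ^ (K.θ / 8)) ^ 2)⁻¹⌉₊ : ℝ) + 1) hy hy1 g.xy hN g.hs.z7 (Nat.cast_nonneg _)
    (by
      have a1 := hceil (s ^ K.θ)⁻¹ (by simpa using g.xi 1)
      rw [div_eq_mul_inv]
      exact a1)
    (Nat.cast_nonneg _)
    (by
      have a1 := hceil ((s ^ K.θ) ^ 4)⁻¹ (g.xi 4)
      rw [div_eq_mul_inv]
      exact a1) (by positivity) hh rfl
  unfold Dat.aN Dat.ch Dat.h
  rw [mx_w]
  exact h

/-- the additive errors -/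
theorem bNm (g : GivX K M s E η m) (hK : K.Ok) :
    (mkX K s E η m M).bN ≤ Real.exp (-((s ^ (K.θ / 8))⁻¹ ^ 4)) := by
  have hs := g.hs.q0.1
  have hx := g.xpos
  have hx1 := g.x1
  have hy := g.ypos
  have hy1 := g.y1 hK
  have hd := hK.dpos
  set Y : ℝ := (s ^ (K.θ / 8))⁻¹ with hY
  have hY1 : 1 ≤ Y := by
    rw [hY, one_le_inv₀ hy]
    exact hy1
  have hY0 : 0 < Y := by linarith
  have h2 : 8 ≤ (s ^ K.θ)⁻¹ := by
    rw [le_inv_comm₀ (by norm_num) hx]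
    have := g.hs.q5.2
    linarith
  have h1 := bN_bound (j := ⌈(s ^ K.θ)⁻¹⌉₊) (p := ⌈((s ^ K.θ) ^ 4)⁻¹⌉₊) hx hx1
    (Nat.le_ceil _) (Nat.le_ceil _) (by
      have h3 := Real.add_one_le_exp ((s ^ K.θ)⁻¹ / 8)
      linarith)
  have h3 : (s ^ K.θ)⁻¹ = Y ^ 8 := by
    rw [g.xy, hY, inv_pow]
  have h1' : (1 / 4 : ℝ) ^ ⌈(s ^ K.θ)⁻¹⌉₊ + (1 / (1 + (s ^ K.θ) ^ 3 / 2)) ^ ⌈((s ^ K.θ) ^ 4)⁻¹⌉₊ ≤
      Real.exp (-(Y ^ 8 / 8)) := by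
    rw [← h3]
    exact h1
  have h4 := g.Md
  rw [← hY] at h4
  have h5 : 8 * (6 * K.d + 2) ≤ Y := by
    have a1 := g.hs.z4
    rw [hY, ← one_div, le_div_iff₀ hy]
    exact a1
  have h6 : (1 : ℝ) + 6 * K.d * Y + -(Y ^ 8 / 8) ≤ -(Y ^ 4) := by
    have b1 : (6 * K.d + 2) * Y ^ 4 ≤ Y ^ 8 / 8 := by
      have c1 : 1 ≤ Y ^ 3 := one_le_pow₀ hY1
      calc (6 * K.d + 2) * Y ^ 4 = (8 * (6 * K.d + 2)) * 1 * Y ^ 4 / 8 := by ring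
        _ ≤ Y * Y ^ 3 * Y ^ 4 / 8 := by gcongr
        _ = Y ^ 8 / 8 := by ring
    have b2 : Y ≤ Y ^ 4 := le_self_pow₀ hY1 (by norm_num)
    have b3 : 1 ≤ Y ^ 4 := one_le_pow₀ hY1
    have b4 : 6 * K.d * Y ≤ 6 * K.d * Y ^ 4 := by gcongr
    linarith
  have h7 : (2 : ℝ) ≤ Real.exp 1 := by
    have := Real.exp_one_gt_d9
    linarith
  show 2 * ((M : ℝ) ^ K.d) ^ 2 * ((1 / 4) ^ ⌈(s ^ K.θ)⁻¹⌉₊ +
    (1 / (1 + (s ^ K.θ) ^ 3 / 2)) ^ ⌈((s ^ K.θ) ^ 4)⁻¹⌉₊) ≤ _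
  calc 2 * ((M : ℝ) ^ K.d) ^ 2 * ((1 / 4) ^ ⌈(s ^ K.θ)⁻¹⌉₊ +
        (1 / (1 + (s ^ K.θ) ^ 3 / 2)) ^ ⌈((s ^ K.θ) ^ 4)⁻¹⌉₊)
      ≤ Real.exp 1 * (Real.exp (3 * K.d * Y)) ^ 2 * Real.exp (-(Y ^ 8 / 8)) := by gcongr
    _ = Real.exp (1 + 6 * K.d * Y + -(Y ^ 8 / 8)) := by
        rw [← Real.exp_nat_mul, ← Real.exp_add, ← Real.exp_add]
        congr 1
        push_cast
        ring
    _ ≤ Real.exp (-(Y ^ 4)) := Real.exp_le_exp.2 h6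

end GivX

end Pool.Agent.LE.QX.H68
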